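import Pool.Agent.H48.RG.Targets
import Pool.Agent.H48.RG.Mol

/-! Partial regularity of stationary harmonic maps (MP_2697e3_an), part D: row DUA (duality for the `L¹`
norm). -/

set_option autoImplicit false

namespace Pool.Agent.H69.RG

open MeasureTheory Metric Set Filter Topology Pool.Agent.H87.SN Pool.Agent.H48.RG
open scoped ContDiff RealInnerProductSpace ENNReal

noncomputable section

/-- the sign, cut off -/
def sgc {n : ℕ} (r : ℝ) (w : E n → ℝ) (x : E n) : ℝ :=
  (closedBall (0 : E n) r).indicator (fun x => if 0 ≤ w x then (1 : ℝ) else -1) x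

theorem sgc_abs {n : ℕ} (r : ℝ) (w : E n → ℝ) (x : E n) : |sgc r w x| ≤ 1 := by
  unfold sgc
  by_cases h : x ∈ closedBall (0 : E n) r
  · rw [indicator_of_mem h]
    split_ifs <;> simp
  · rw [indicator_of_notMem h]
    simp

theorem sgc_int {n : ℕ} (r : ℝ) {w : E n → ℝ} (hw : Measurable w) :
    Integrable (sgc r w) volume := by
  have hm : Measurable (fun x => if 0 ≤ w x then (1 : ℝ) else -1) :=
    Measurable.ite (measurableSet_le measurable_const hw) measurable_const measurable_const
  have h2 : Integrable (sgc r w) volume := by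
    unfold sgc
    change Integrable ((closedBall (0 : E n) r).indicator _) volume
    rw [integrable_indicator_iff isClosed_closedBall.measurableSet]
    refine Measure.integrableOn_of_bounded (M := 1)
      (isCompact_closedBall _ _).measure_ne_top hm.aestronglyMeasurable ?_
    refine Eventually.of_forall fun x => ?_
    rw [Real.norm_eq_abs]
    split_ifs <;> simp
  exact h2

theorem mol_abs_le {n : ℕ} (k : ℕ) {g : E n → ℝ} (hg : Integrable g volume)
    (h1 : ∀ x, |g x| ≤ 1) (x : E n) : |mol (rh n k) g x| ≤ 1 := by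
  rw [mol_eq]
  have hI : ∫ t, rh n k (x - t) = 1 := by
    rw [integral_sub_left_eq_self (fun t => rh n k t) volume x]
    exact (bmp n k).integral_normed
  have hi : Integrable (fun t => rh n k (x - t)) := by
    have := ((bmp n k).integrable_normed (μ := (volume : Measure (E n)))).comp_sub_left x
    exact this
  have h2 : |∫ t, rh n k (x - t) • g t| ≤ ∫ t, rh n k (x - t) := by
    rw [← Real.norm_eq_abs]
    refine norm_integral_le_of_norm_le hi (Eventually.of_forall fun t => ?_)
    have h0 : 0 ≤ rh n k (x - t) := (bmp n k).nonneg_normed _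
    rw [norm_smul, Real.norm_of_nonneg h0, Real.norm_eq_abs]
    exact mul_le_of_le_one_right h0 (h1 t)
  rw [hI] at h2
  exact h2

theorem inner_case {n : ℕ} {θ r K : ℝ} {w : E n → ℝ} (hr : r < θ)
    (hw : Measurable w) (hwi : IntegrableOn w (ball (0 : E n) θ))
    (h : ∀ f, Tst (ball (0 : E n) θ) f → (∀ x, |f x| ≤ 1) →
      ∫ x in ball (0 : E n) θ, f x * w x ≤ K) :
    ∫ x in closedBall (0 : E n) r, |w x| ≤ K := by
  set g : E n → ℝ := sgc r w with hgdef
  have hg : Integrable g volume := sgc_int r hw
  have hg1 : ∀ x, |g x| ≤ 1 := sgc_abs r w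
  have hl1 := mol_tendsto_l1 (n := n) hg
  -- a subsequence converges almost everywhere
  have hL1 : Tendsto (fun m => eLpNorm (mol (rh n m) g - g) 1 volume) atTop (𝓝 0) := by
    have e : ∀ m, eLpNorm (mol (rh n m) g - g) 1 volume =
        ∫⁻ x, ‖mol (rh n m) g x - g x‖ₑ := by
      intro m
      rw [eLpNorm_one_eq_lintegral_enorm]
      rfl
    simpa only [e] using hl1
  have hTM : TendstoInMeasure volume (fun m => mol (rh n m) g) atTop g :=
    tendstoInMeasure_of_tendsto_eLpNorm (by norm_num)
      (fun m => aesm_mol hg.locallyIntegrable m) hg.1 hL1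
  obtain ⟨ns, hns, hae⟩ := hTM.exists_seq_tendsto_ae
  -- dominated convergence
  have hlim : Tendsto (fun j => ∫ x in ball (0 : E n) θ, mol (rh n (ns j)) g x * w x) atTop
      (𝓝 (∫ x in ball (0 : E n) θ, g x * w x)) := by
    refine tendsto_integral_of_dominated_convergence (fun x => |w x|) ?_ hwi.abs ?_ ?_
    · intro j
      exact ((aesm_mol hg.locallyIntegrable _).restrict).mul hwi.1
    · intro j
      refine Eventually.of_forall fun x => ?_
      rw [norm_mul, Real.norm_eq_abs, Real.norm_eq_abs]
      exact mul_le_of_le_one_left (abs_nonneg _) (mol_abs_le _ hg hg1 x)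
    · filter_upwards [ae_restrict_of_ae hae] with x hx
      exact hx.mul_const _
  have hev : ∀ᶠ j in atTop, ∫ x in ball (0 : E n) θ, mol (rh n (ns j)) g x * w x ≤ K := by
    have h1 : Tendsto (fun j => 1 / (((ns j : ℕ) : ℝ) + 1)) atTop (𝓝 0) :=
      tendsto_one_div_add_atTop_nhds_zero_nat.comp hns.tendsto_atTop
    have h2 : ∀ᶠ j in atTop, 1 / (((ns j : ℕ) : ℝ) + 1) < θ - r :=
      h1.eventually (gt_mem_nhds (by linarith))
    filter_upwards [h2] with j hj
    have hzero : ∀ x, x ∉ closedBall (0 : E n) (r + 1 / (((ns j : ℕ) : ℝ) + 1)) →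
        mol (rh n (ns j)) g x = 0 := by
      intro x hx
      refine mol_eq_zero (K := closedBall (0 : E n) r) ?_ ?_
      · intro y hy
        rw [hgdef]
        unfold sgc
        rw [indicator_of_notMem hy]
      · intro hc
        apply hx
        have h3 : (0 : ℝ) ≤ 1 / (((ns j : ℕ) : ℝ) + 1) := by positivity
        by_cases hr0 : r < 0
        · rw [closedBall_eq_empty.2 hr0] at hc
          simp at hc
        · rw [cthickening_closedBall h3 (not_lt.1 hr0)] at hc
          rwa [add_comm] at hc
    have hsub : tsupport (mol (rh n (ns j)) g) ⊆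
        closedBall (0 : E n) (r + 1 / (((ns j : ℕ) : ℝ) + 1)) := by
      refine closure_minimal ?_ isClosed_closedBall
      intro x hx
      by_contra hcon
      exact hx (hzero x hcon)
    refine h _ ⟨contDiff_mol (rh_smooth _) (rh_cpt _) hg.locallyIntegrable, ?_, ?_⟩
      (mol_abs_le _ hg hg1)
    · exact (isCompact_closedBall _ _).of_isClosed_subset (isClosed_tsupport _) hsub
    · exact hsub.trans (closedBall_subset_ball (by linarith))
  have hle := le_of_tendsto hlim hev
  have he : ∫ x in ball (0 : E n) θ, g x * w x = ∫ x in closedBall (0 : E n) r, |w x| := by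
    have hsubs : closedBall (0 : E n) r ⊆ ball 0 θ := closedBall_subset_ball hr
    have e1 : ∀ x, g x * w x = (closedBall (0 : E n) r).indicator (fun x => |w x|) x := by
      intro x
      rw [hgdef]
      unfold sgc
      by_cases hx : x ∈ closedBall (0 : E n) r
      · rw [indicator_of_mem hx, indicator_of_mem hx]
        split_ifs with h0
        · rw [one_mul, abs_of_nonneg h0]
        · rw [abs_of_neg (not_le.1 h0)]
          ring
      · rw [indicator_of_notMem hx, indicator_of_notMem hx, zero_mul]
    simp only [e1]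
    rw [integral_indicator isClosed_closedBall.measurableSet,
      Measure.restrict_restrict isClosed_closedBall.measurableSet,
      inter_eq_self_of_subset_left hsubs]
  rw [← he]
  exact hle

/-- The statement of the row DUA. -/
theorem pf_DUA : T_DUA := by
  intro n θ K w hθ hwi h
  -- a measurable representative
  obtain ⟨w', hw'm, hww'⟩ : ∃ w' : E n → ℝ, Measurable w' ∧
      w =ᵐ[volume.restrict (ball (0 : E n) θ)] w' :=
    ⟨hwi.1.mk w, hwi.1.stronglyMeasurable_mk.measurable, hwi.1.ae_eq_mk⟩
  have hw'i : IntegrableOn w' (ball (0 : E n) θ) := hwi.congr hww'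
  have h' : ∀ f, Tst (ball (0 : E n) θ) f → (∀ x, |f x| ≤ 1) →
      ∫ x in ball (0 : E n) θ, f x * w' x ≤ K := by
    intro f hf hf1
    have e : ∫ x in ball (0 : E n) θ, f x * w' x = ∫ x in ball (0 : E n) θ, f x * w x := by
      refine integral_congr_ae ?_
      filter_upwards [hww'] with x hx
      rw [hx]
    rw [e]
    exact h f hf hf1
  have e : ∫ x in ball (0 : E n) θ, |w x| = ∫ x in ball (0 : E n) θ, |w' x| := by
    refine integral_congr_ae ?_
    filter_upwards [hww'] with x hx
    rw [hx]
  rw [e]
  set s : ℕ → Set (E n) := fun k => closedBall (0 : E n) (θ - θ / ((k : ℝ) + 1)) with hs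
  have hU : (⋃ k, s k) = ball (0 : E n) θ := by
    ext x
    simp only [hs, mem_iUnion, mem_closedBall_zero_iff, mem_ball_zero_iff]
    constructor
    · rintro ⟨k, hk⟩
      have : 0 < θ / ((k : ℝ) + 1) := by positivity
      linarith
    · intro hx
      have h1 : Tendsto (fun k : ℕ => θ * (1 / ((k : ℝ) + 1))) atTop (𝓝 (θ * 0)) :=
        tendsto_one_div_add_atTop_nhds_zero_nat.const_mul θ
      rw [mul_zero] at h1
      obtain ⟨k, hk⟩ := (h1.eventually (gt_mem_nhds (sub_pos.2 hx))).exists
      refine ⟨k, ?_⟩
      have e2 : θ / ((k : ℝ) + 1) = θ * (1 / ((k : ℝ) + 1)) := by ring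
      rw [e2]
      linarith
  have hmono : Monotone s := by
    intro j k hjk
    refine closedBall_subset_closedBall ?_
    have h1 : θ / ((k : ℝ) + 1) ≤ θ / ((j : ℝ) + 1) := by
      have : (j : ℝ) ≤ k := by exact_mod_cast hjk
      gcongr
    linarith
  have hlim : Tendsto (fun k => ∫ x in s k, |w' x|) atTop (𝓝 (∫ x in ⋃ k, s k, |w' x|)) := by
    refine tendsto_setIntegral_of_monotone (fun k => isClosed_closedBall.measurableSet) hmono ?_
    rw [hU]
    exact hw'i.abs
  rw [hU] at hlim
  refine le_of_tendsto hlim (Eventually.of_forall fun k => ?_)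
  refine inner_case (θ := θ) ?_ hw'm hw'i h'
  have : 0 < θ / ((k : ℝ) + 1) := by positivity
  linarith

end

end Pool.Agent.H69.RG
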