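import Pool.Agent.H48.RG.Targets

/-! Partial regularity of stationary harmonic maps (MP_2697e3_an), part D: row LPI (the `L²` norm of the
Hessian). -/

set_option autoImplicit false

namespace Pool.Agent.H69.RG

open MeasureTheory Metric Set Filter Topology Pool.Agent.H87.SN Pool.Agent.H48.RG
open scoped ContDiff RealInnerProductSpace ENNReal

noncomputable section

/-- smooth functions with compact support -/
def Cs {n : ℕ} (f : E n → ℝ) : Prop := ContDiff ℝ ∞ f ∧ HasCompactSupport f

/-- the partial derivative -/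
def pa {n : ℕ} (i : Fin n) (f : E n → ℝ) (x : E n) : ℝ := fderiv ℝ f x (bv i)

theorem Cs.pa {n : ℕ} {f : E n → ℝ} (hf : Cs f) (i : Fin n) : Cs (pa i f) := by
  refine ⟨?_, ?_⟩
  · have h := hf.1.fderiv_right (m := ∞) (by exact le_rfl)
    exact h.clm_apply contDiff_const
  · have h := hf.2.fderiv (𝕜 := ℝ)
    refine h.mono ?_
    intro x hx hx0
    apply hx
    simp only [RG.pa]
    rw [show fderiv ℝ f x = 0 from by simpa using hx0]
    simp

theorem Cs.int {n : ℕ} {f : E n → ℝ} (hf : Cs f) : Integrable f :=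
  hf.1.continuous.integrable_of_hasCompactSupport hf.2

theorem Cs.mul {n : ℕ} {f g : E n → ℝ} (hf : Cs f) (hg : Cs g) : Cs (fun x => f x * g x) :=
  ⟨hf.1.mul hg.1, hf.2.mul_right⟩

theorem pa_ibp {n : ℕ} {f g : E n → ℝ} (hf : Cs f) (hg : Cs g) (i : Fin n) :
    ∫ x, f x * pa i g x = - ∫ x, pa i f x * g x := by
  have h := integral_mul_fderiv_eq_neg_fderiv_mul_of_integrable (μ := (volume : Measure (E n)))
    (f := f) (g := g) (v := bv i)
    (by exact ((hf.pa i).mul hg).int) (by exact (hf.mul (hg.pa i)).int)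
    (by exact (hf.mul hg).int)
    (fun x _ => (hf.1.differentiable (by simp)).differentiableAt)
    (fun x _ => (hg.1.differentiable (by simp)).differentiableAt)
  exact h

theorem pa_comm {n : ℕ} {f : E n → ℝ} (hf : Cs f) (i j : Fin n) (x : E n) :
    pa i (pa j f) x = pa j (pa i f) x := by
  have hd : DifferentiableAt ℝ (fderiv ℝ f) x :=
    ((hf.1.fderiv_right (m := ∞) le_rfl).differentiable (by simp)).differentiableAt
  have e : ∀ v w : E n, fderiv ℝ (fun y => fderiv ℝ f y v) x w = fderiv ℝ (fderiv ℝ f) x w v := by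
    intro v w
    rw [fderiv_clm_apply hd (differentiableAt_const v)]
    simp
  have hs : IsSymmSndFDerivAt ℝ f x :=
    hf.1.contDiffAt.isSymmSndFDerivAt (by simp; norm_cast)
  have e1 : pa i (pa j f) x = fderiv ℝ (fderiv ℝ f) x (bv i) (bv j) := e (bv j) (bv i)
  have e2 : pa j (pa i f) x = fderiv ℝ (fderiv ℝ f) x (bv j) (bv i) := e (bv i) (bv j)
  rw [e1, e2]
  exact hs.eq (bv i) (bv j)

theorem hess_swap {n : ℕ} {X : E n → ℝ} (hX : Cs X) (i a : Fin n) :
    ∫ x, pa i (pa a X) x ^ 2 = ∫ x, pa i (pa i X) x * pa a (pa a X) x := by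
  have h1 : ∫ x, pa i (pa a X) x ^ 2 = - ∫ x, pa i (pa i (pa a X)) x * pa a X x := by
    rw [← pa_ibp ((hX.pa a).pa i) (hX.pa a) i]
    congr 1
    ext x
    ring
  have h2 : ∫ x, pa i (pa i X) x * pa a (pa a X) x = - ∫ x, pa a (pa i (pa i X)) x * pa a X x :=
    pa_ibp ((hX.pa i).pa i) (hX.pa a) a
  rw [h1, h2]
  congr 2
  ext x
  have e1 : pa i (pa a X) = pa a (pa i X) := by
    ext y
    exact pa_comm hX i a y
  rw [e1, pa_comm (hX.pa i) i a x]

theorem grad_sq {n : ℕ} (g : E n → ℝ) (x : E n) :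
    ‖gradient g x‖ ^ 2 = ∑ i : Fin n, pa i g x ^ 2 := by
  rw [EuclideanSpace.norm_sq_eq]
  refine Finset.sum_congr rfl fun i _ => ?_
  have h1 : (gradient g x) i = pa i g x := by
    have h2 : ⟪gradient g x, bv i⟫ = fderiv ℝ g x (bv i) := by
      rw [gradient]
      exact InnerProductSpace.toDual_symm_apply
    rw [pa, ← h2, bv, EuclideanSpace.inner_single_right]
    simp
  rw [Real.norm_eq_abs, sq_abs]
  rw [← h1]

/-- The statement of the row LPI. -/
theorem pf_LPI : T_LPI := by
  intro n X hX hXc a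
  have hC : Cs X := ⟨hX, hXc⟩
  have hi : ∀ i b : Fin n, Integrable (fun x => pa i (pa b X) x ^ 2) := by
    intro i b
    have := (((hC.pa b).pa i).mul ((hC.pa b).pa i)).int
    simpa only [← sq] using this
  have hp : ∀ i b : Fin n, Integrable (fun x => pa i (pa i X) x * pa b (pa b X) x) := fun i b =>
    (((hC.pa i).pa i).mul ((hC.pa b).pa b)).int
  have key : ∀ b : Fin n, (∫ x, ‖gradient (fun y => fderiv ℝ X y (bv b)) x‖ ^ 2) =
      ∫ x, ∑ i, pa i (pa i X) x * pa b (pa b X) x := by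
    intro b
    have e : ∀ x, ‖gradient (fun y => fderiv ℝ X y (bv b)) x‖ ^ 2 =
        ∑ i, pa i (pa b X) x ^ 2 := fun x => grad_sq _ x
    simp only [e]
    rw [integral_finsetSum _ fun i _ => hi i b, integral_finsetSum _ fun i _ => hp i b]
    exact Finset.sum_congr rfl fun i _ => hess_swap hC i b
  have tot : ∑ b : Fin n, (∫ x, ‖gradient (fun y => fderiv ℝ X y (bv b)) x‖ ^ 2) =
      ∫ x, lp X x ^ 2 := by
    simp only [key]
    rw [← integral_finsetSum _ fun b _ => integrable_finsetSum _ fun i _ => hp i b]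
    congr 1
    ext x
    have e : lp X x = ∑ i, pa i (pa i X) x := rfl
    rw [e, sq, Finset.sum_mul_sum, Finset.sum_comm]
  rw [← tot]
  exact Finset.single_le_sum (f := fun b : Fin n =>
    (∫ x, ‖gradient (fun y => fderiv ℝ X y (bv b)) x‖ ^ 2))
    (fun b _ => integral_nonneg fun x => by positivity) (Finset.mem_univ a)

end

end Pool.Agent.H69.RG
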